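import Mathlib
import Pool.Agent.N299.ND.Stm
import Pool.Agent.Helper757.GL.Quot

/-!
Project ND, task CERT: commutator certificates in nowhere scattered ideals.
-/

set_option autoImplicit false

open scoped Topology
open Filter

noncomputable section

namespace Pool.Agent.N787.ND

open Pool.Agent.N299 Pool.Agent.N299.DT Pool.Agent.N299.ND Pool.Agent.Helper757.GL

theorem exists_char_comm (S : Type) [CommCStarAlgebra S] (x : S) (hx : x ≠ 0) :
    ∃ φ : S →⋆ₐ[ℂ] ℂ, φ x ≠ 0 := by
  by_contra hcon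
  push Not at hcon
  apply hx
  have hinj := (gelfandTransform_bijective S).1
  apply hinj
  rw [map_zero]
  ext φ
  have := hcon { (WeakDual.CharacterSpace.toAlgHom φ) with map_star' := fun y => map_star φ y }
  exact this

/-- the quotient is commutative -/
@[reducible] def commQ {A : Type} [CStarAlgebra A] {K : Submodule ℂ A} (H : CI K)
    (hc : ∀ x y : A, x * y - y * x ∈ K) : CommCStarAlgebra (Q H) :=
  { (instCStarAlgebra H) with
    mul_comm := by
      intro x y
      obtain ⟨x, rfl⟩ := mk_surj H x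
      obtain ⟨y, rfl⟩ := mk_surj H y
      rw [← mk_mul, ← mk_mul, mk_eq]
      exact hc x y }

theorem exists_chi {A : Type} [CStarAlgebra A] {K : Submodule ℂ A} (H : CI K)
    (hc : ∀ x y : A, x * y - y * x ∈ K) {a : A} (ha : a ∉ K) :
    ∃ χ : A →⋆ₐ[ℂ] ℂ, χ a ≠ 0 := by
  have hna : mk H a ≠ 0 := fun h0 => ha ((mkHom_eq_zero H a).1 h0)
  obtain ⟨φ, hφ⟩ := @exists_char_comm (Q H) (commQ H hc) (mk H a) hna
  refine ⟨{ toFun := fun x => φ (mk H x), map_one' := ?_, map_mul' := ?_, map_zero' := ?_,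
            map_add' := ?_, commutes' := ?_, map_star' := ?_ }, hφ⟩
  · exact map_one φ
  · intro x y
    exact map_mul φ (mk H x) (mk H y)
  · exact map_zero φ
  · intro x y
    exact map_add φ (mk H x) (mk H y)
  · intro r
    exact (congrArg φ ((mkHom H).commutes r)).trans (φ.commutes' r)
  · intro x
    exact map_star φ (mk H x)

section parts

variable {B : Type} [CStarAlgebra B]

theorem approx {a : B} (ha : Pos a) {t : ℝ} (ht : 0 < t) :
    ∃ b : B, ‖a * b * a * a - a‖ ≤ 2 * t ∧ ‖a * (a * b * a) - a‖ ≤ 2 * t := by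
  have hsa : IsSelfAdjoint a := ha.sa
  have hsp : ∀ s ∈ spectrum ℝ a, 0 ≤ s := by
    let _ : PartialOrder B := CStarAlgebra.spectralOrder B
    let _ : StarOrderedRing B := CStarAlgebra.spectralOrderedRing B
    intro s hs
    exact spectrum_nonneg_of_nonneg ((pos_iff a).1 ha) hs
  have hden : ∀ s : ℝ, 0 < (|s| + t) ^ 2 := fun s => by positivity
  have hcf : Continuous fun s : ℝ => 1 / (|s| + t) ^ 2 :=
    continuous_const.div (by fun_prop) fun s => (hden s).ne'
  set b := cfc (fun s : ℝ => 1 / (|s| + t) ^ 2) a with hb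
  have hid : cfc (fun s : ℝ => s) a = a := cfc_id' ℝ a
  have h1 : a * b = cfc (fun s : ℝ => s * (1 / (|s| + t) ^ 2)) a := by
    rw [cfc_mul (fun s : ℝ => s) (fun s : ℝ => 1 / (|s| + t) ^ 2) a (by fun_prop)
      hcf.continuousOn, hid]
  have hc2 : Continuous fun s : ℝ => s * (1 / (|s| + t) ^ 2) := continuous_id.mul hcf
  have h2 : a * b * a = cfc (fun s : ℝ => s * (1 / (|s| + t) ^ 2) * s) a := by
    rw [cfc_mul (fun s : ℝ => s * (1 / (|s| + t) ^ 2)) (fun s : ℝ => s) a hc2.continuousOn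
      (by fun_prop), hid, h1]
  have hc3 : Continuous fun s : ℝ => s * (1 / (|s| + t) ^ 2) * s := hc2.mul continuous_id
  have h3 : a * b * a * a = cfc (fun s : ℝ => s * (1 / (|s| + t) ^ 2) * s * s) a := by
    rw [cfc_mul (fun s : ℝ => s * (1 / (|s| + t) ^ 2) * s) (fun s : ℝ => s) a hc3.continuousOn
      (by fun_prop), hid, h2]
  have h4 : a * (a * b * a) = cfc (fun s : ℝ => s * (s * (1 / (|s| + t) ^ 2) * s)) a := by
    rw [cfc_mul (fun s : ℝ => s) (fun s : ℝ => s * (1 / (|s| + t) ^ 2) * s) a (by fun_prop)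
      hc3.continuousOn, hid, h2]
  have key : ∀ s : ℝ, 0 ≤ s → |s * (1 / (|s| + t) ^ 2) * s * s - s| ≤ 2 * t := by
    intro s hs
    rw [abs_of_nonneg hs]
    have hd : 0 < (s + t) ^ 2 := by positivity
    have e1 : s * (1 / (s + t) ^ 2) * s * s - s = -(t * (s * (2 * s + t)) / (s + t) ^ 2) := by
      field_simp
      ring
    rw [e1, abs_neg, abs_of_nonneg (by positivity), div_le_iff₀ hd]
    have : s * (2 * s + t) ≤ 2 * (s + t) ^ 2 := by nlinarith
    calc t * (s * (2 * s + t)) ≤ t * (2 * (s + t) ^ 2) := mul_le_mul_of_nonneg_left this ht.le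
      _ = 2 * t * (s + t) ^ 2 := by ring
  refine ⟨b, ?_, ?_⟩
  · have e : a * b * a * a - a = cfc (fun s : ℝ => s * (1 / (|s| + t) ^ 2) * s * s - s) a := by
      rw [cfc_sub (fun s : ℝ => s * (1 / (|s| + t) ^ 2) * s * s) (fun s : ℝ => s) a
        (hc3.mul continuous_id).continuousOn (by fun_prop), hid, h3]
    rw [e]
    refine norm_cfc_le (by positivity) fun s hs => ?_
    rw [Real.norm_eq_abs]
    exact key s (hsp s hs)
  · have e : a * (a * b * a) - a =
        cfc (fun s : ℝ => s * (s * (1 / (|s| + t) ^ 2) * s) - s) a := by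
      rw [cfc_sub (fun s : ℝ => s * (s * (1 / (|s| + t) ^ 2) * s)) (fun s : ℝ => s) a
        (continuous_id.mul hc3).continuousOn (by fun_prop), hid, h4]
    rw [e]
    refine norm_cfc_le (by positivity) fun s hs => ?_
    rw [Real.norm_eq_abs]
    have := key s (hsp s hs)
    have e2 : s * (s * (1 / (|s| + t) ^ 2) * s) = s * (1 / (|s| + t) ^ 2) * s * s := by ring
    rwa [e2]

theorem approx_seq {a : B} (ha : Pos a) : ∃ b : ℕ → B,
    Tendsto (fun n => a * b n * a * a) atTop (𝓝 a) ∧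
    Tendsto (fun n => a * (a * b n * a)) atTop (𝓝 a) := by
  have h : ∀ n : ℕ, ∃ b : B, ‖a * b * a * a - a‖ ≤ 2 * (1 / ((n : ℝ) + 1)) ∧
      ‖a * (a * b * a) - a‖ ≤ 2 * (1 / ((n : ℝ) + 1)) := fun n => approx ha (by positivity)
  choose b hb1 hb2 using h
  have hz : Tendsto (fun n : ℕ => 2 * (1 / ((n : ℝ) + 1))) atTop (𝓝 0) := by
    have := (tendsto_one_div_add_atTop_nhds_zero_nat (𝕜 := ℝ)).const_mul 2
    simpa using this
  refine ⟨b, ?_, ?_⟩
  · rw [tendsto_iff_norm_sub_tendsto_zero]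
    exact squeeze_zero (fun _ => norm_nonneg _) hb1 hz
  · rw [tendsto_iff_norm_sub_tendsto_zero]
    exact squeeze_zero (fun _ => norm_nonneg _) hb2 hz

/-- the certificates -/
def Fb (a : B) (b : Fin 4 → B) : B :=
  (a * b 0 * a) * ((a * b 1 * a) * (a * b 2 * a) - (a * b 2 * a) * (a * b 1 * a)) * (a * b 3 * a)

/-- the span of the certificates -/
def K0 (a : B) : Submodule ℂ B where
  carrier := {x | ∃ (N : ℕ) (b : Fin N → Fin 4 → B), x = ∑ t, Fb a (b t)}
  zero_mem' := ⟨0, Fin.elim0, by simp⟩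
  add_mem' := by
    rintro x y ⟨N, b, rfl⟩ ⟨M, b', rfl⟩
    refine ⟨N + M, Fin.append b b', ?_⟩
    rw [Fin.sum_univ_add]
    simp
  smul_mem' := by
    rintro c x ⟨N, b, rfl⟩
    refine ⟨N, fun t => Function.update (b t) 0 (c • b t 0), ?_⟩
    rw [Finset.smul_sum]
    refine Finset.sum_congr rfl fun t _ => ?_
    simp [Fb]

theorem mem_K0 (a : B) (x : B) : x ∈ K0 a ↔ ∃ (N : ℕ) (b : Fin N → Fin 4 → B),
    x = ∑ t, Fb a (b t) := Iff.rfl

/-- scalars plus the corner -/
def S0 (a : B) (ha : star a = a) : StarSubalgebra ℂ B where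
  carrier := {x | ∃ (c : ℂ) (b : B), x = c • 1 + a * b * a}
  mul_mem' := by
    rintro x y ⟨c, b, rfl⟩ ⟨c', b', rfl⟩
    refine ⟨c * c', c • b' + c' • b + b * a * a * b', ?_⟩
    simp only [mul_add, add_mul, smul_mul_assoc, mul_smul_comm, one_mul, mul_one, smul_add,
      smul_smul, mul_assoc]
    rw [mul_comm c' c]
    abel
  add_mem' := by
    rintro x y ⟨c, b, rfl⟩ ⟨c', b', rfl⟩
    refine ⟨c + c', b + b', ?_⟩
    rw [add_smul, mul_add, add_mul]
    abel
  algebraMap_mem' := by
    intro r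
    refine ⟨r, 0, ?_⟩
    rw [mul_zero, zero_mul, add_zero, Algebra.algebraMap_eq_smul_one]
  star_mem' := by
    rintro x ⟨c, b, rfl⟩
    refine ⟨star c, star b, ?_⟩
    rw [star_add, star_smul, star_one, star_mul, star_mul, ha, mul_assoc]

theorem mem_S0 (a : B) (ha : star a = a) (x : B) :
    x ∈ S0 a ha ↔ ∃ (c : ℂ) (b : B), x = c • 1 + a * b * a := Iff.rfl

theorem S0_mul_K0 {a : B} (ha : star a = a) {x k : B} (hx : x ∈ S0 a ha) (hk : k ∈ K0 a) :
    x * k ∈ K0 a := by
  obtain ⟨c, b', rfl⟩ := hx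
  obtain ⟨N, b, rfl⟩ := hk
  refine ⟨N, fun t => Function.update (b t) 0 (c • b t 0 + b' * a * a * b t 0), ?_⟩
  rw [Finset.mul_sum]
  refine Finset.sum_congr rfl fun t _ => ?_
  have h1 : Fb a (Function.update (b t) 0 (c • b t 0 + b' * a * a * b t 0)) =
      (a * (c • b t 0 + b' * a * a * b t 0) * a) * ((a * b t 1 * a) * (a * b t 2 * a) -
        (a * b t 2 * a) * (a * b t 1 * a)) * (a * b t 3 * a) := by
    simp [Fb]
  rw [h1, Fb]
  have h2 : (c • (1 : B) + a * b' * a) * (a * b t 0 * a) =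
      a * (c • b t 0 + b' * a * a * b t 0) * a := by
    simp only [mul_add, add_mul, smul_mul_assoc, mul_smul_comm, one_mul, mul_assoc]
  rw [← h2]
  simp only [mul_assoc]

theorem K0_mul_S0 {a : B} (ha : star a = a) {x k : B} (hx : x ∈ S0 a ha) (hk : k ∈ K0 a) :
    k * x ∈ K0 a := by
  obtain ⟨c, b', rfl⟩ := hx
  obtain ⟨N, b, rfl⟩ := hk
  refine ⟨N, fun t => Function.update (b t) 3 (c • b t 3 + b t 3 * a * a * b'), ?_⟩
  rw [Finset.sum_mul]
  refine Finset.sum_congr rfl fun t _ => ?_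
  have h1 : Fb a (Function.update (b t) 3 (c • b t 3 + b t 3 * a * a * b')) =
      (a * b t 0 * a) * ((a * b t 1 * a) * (a * b t 2 * a) -
        (a * b t 2 * a) * (a * b t 1 * a)) * (a * (c • b t 3 + b t 3 * a * a * b') * a) := by
    simp [Fb]
  rw [h1, Fb]
  have h2 : (a * b t 3 * a) * (c • (1 : B) + a * b' * a) =
      a * (c • b t 3 + b t 3 * a * a * b') * a := by
    simp only [mul_add, add_mul, smul_mul_assoc, mul_smul_comm, mul_one, mul_assoc]
  rw [← h2]
  simp only [mul_assoc]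

theorem comm_mem {a : B} (hp : Pos a) {x y : B} (hx : x ∈ S0 a hp.sa) (hy : y ∈ S0 a hp.sa) :
    x * y - y * x ∈ closure (K0 a : Set B) := by
  obtain ⟨c, b, rfl⟩ := hx
  obtain ⟨c', b', rfl⟩ := hy
  have h1 : (c • (1 : B) + a * b * a) * (c' • 1 + a * b' * a) -
      (c' • 1 + a * b' * a) * (c • 1 + a * b * a) =
      (a * b * a) * (a * b' * a) - (a * b' * a) * (a * b * a) := by
    simp only [mul_add, add_mul, smul_mul_assoc, mul_smul_comm, one_mul, mul_one, smul_add,
      smul_smul]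
    rw [mul_comm c' c]
    abel
  rw [h1]
  obtain ⟨g, hg1, hg2⟩ := approx_seq hp
  have h2 : (a * b * a) * (a * b' * a) - (a * b' * a) * (a * b * a) =
      a * (b * a * a * b' - b' * a * a * b) * a := by
    simp only [mul_sub, sub_mul, mul_assoc]
  have h3 : Tendsto (fun n => (a * g n * a * a) * (b * a * a * b' - b' * a * a * b) *
      (a * (a * g n * a))) atTop (𝓝 (a * (b * a * a * b' - b' * a * a * b) * a)) :=
    (hg1.mul_const _).mul hg2
  rw [h2]
  refine mem_closure_of_tendsto h3 (Eventually.of_forall fun n => ?_)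
  show _ ∈ K0 a
  refine ⟨1, fun _ => ![g n, b, b', g n], ?_⟩
  simp only [Finset.univ_unique, Finset.sum_const, Finset.card_singleton, one_smul]
  simp only [Fb, Matrix.cons_val_zero, Matrix.cons_val_one, Matrix.cons_val]
  rw [h2]
  simp only [mul_assoc]

/-- the unitized corner -/
def D1 (a : B) (ha : star a = a) : StarSubalgebra ℂ B := (S0 a ha).topologicalClosure

theorem mem_D1 (a : B) (ha : star a = a) (x : B) : x ∈ D1 a ha ↔ x ∈ closure (S0 a ha : Set B) := by
  rw [← StarSubalgebra.topologicalClosure_coe]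
  rfl

theorem corner_mem (a : B) (ha : star a = a) (b : B) : a * b * a ∈ D1 a ha := by
  rw [mem_D1]
  apply subset_closure
  exact ⟨0, b, by rw [zero_smul, zero_add]⟩

theorem self_mem {a : B} (hp : Pos a) : a ∈ D1 a hp.sa := by
  rw [mem_D1]
  obtain ⟨g, -, hg⟩ := approx_seq hp
  refine mem_closure_of_tendsto hg (Eventually.of_forall fun n => ?_)
  exact ⟨0, a * g n, by rw [zero_smul, zero_add]; simp only [mul_assoc]⟩

theorem mulL {a : B} (ha : star a = a) {x k : B} (hx : x ∈ D1 a ha)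
    (hk : k ∈ closure (K0 a : Set B)) : x * k ∈ closure (K0 a : Set B) :=
  map_mem_closure₂ continuous_mul ((mem_D1 a ha x).1 hx) hk fun _ h _ h' => S0_mul_K0 ha h h'

theorem mulR {a : B} (ha : star a = a) {x k : B} (hx : x ∈ D1 a ha)
    (hk : k ∈ closure (K0 a : Set B)) : k * x ∈ closure (K0 a : Set B) :=
  map_mem_closure₂ continuous_mul hk ((mem_D1 a ha x).1 hx) fun _ h _ h' => K0_mul_S0 ha h' h

theorem commD {a : B} (hp : Pos a) {x y : B} (hx : x ∈ D1 a hp.sa) (hy : y ∈ D1 a hp.sa) :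
    x * y - y * x ∈ closure (K0 a : Set B) := by
  have h1 : x * y - y * x ∈ closure (closure (K0 a : Set B)) :=
    map_mem_closure₂ (f := fun x y : B => x * y - y * x) (by fun_prop)
      ((mem_D1 a hp.sa x).1 hx) ((mem_D1 a hp.sa y).1 hy) fun _ h _ h' => comm_mem hp h h'
  rwa [closure_closure] at h1

/-- the ideal of the commutators -/
def K1 (a : B) (ha : star a = a) : Submodule ℂ (D1 a ha) where
  carrier := {x | (x : B) ∈ closure (K0 a : Set B)}
  zero_mem' := subset_closure (K0 a).zero_mem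
  add_mem' := by
    intro x y hx hy
    exact (K0 a).topologicalClosure.add_mem hx hy
  smul_mem' := by
    intro c x hx
    exact (K0 a).topologicalClosure.smul_mem c hx

theorem mem_K1 (a : B) (ha : star a = a) (x : D1 a ha) :
    x ∈ K1 a ha ↔ (x : B) ∈ closure (K0 a : Set B) := Iff.rfl

end parts

/-- a character of the corner gives a contradiction -/
theorem no_char {B : Type} [CStarAlgebra B] (I : Submodule ℂ B) (hI : Idl I) (hN : NSI I) {a : B}
    (haI : a ∈ I) (D : StarSubalgebra ℂ B) (hD : IsClosed (D : Set B)) (ha : star a = a)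
    (haD : a ∈ D) (hc : ∀ b, a * b * a ∈ D) (χ : D →⋆ₐ[ℂ] ℂ) : χ ⟨a, haD⟩ = 0 := by
  by_contra hl
  have _ : IsClosed (D : Set B) := hD
  let a1 : D := ⟨a, haD⟩
  obtain ⟨lam, hlam⟩ : ∃ l : ℂ, l = χ a1 := ⟨_, rfl⟩
  have hl0 : lam ≠ 0 := by rw [hlam]; exact hl
  have hls : star lam = lam := by
    rw [hlam, ← map_star]
    congr 1
    exact Subtype.ext ha
  have hcont : Continuous χ := continuous_hom χ
  let inc : B → D := fun b => ⟨a * b * a, hc b⟩
  have hinc : Continuous inc := Continuous.subtype_mk (by fun_prop) _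
  let L : B →ₗ[ℂ] ℂ :=
    { toFun := fun b => χ (inc b)
      map_add' := by
        intro b b'
        rw [← map_add]
        congr 1
        apply Subtype.ext
        show a * (b + b') * a = a * b * a + a * b' * a
        rw [mul_add, add_mul]
      map_smul' := by
        intro c b
        rw [RingHom.id_apply, ← map_smul]
        congr 1
        apply Subtype.ext
        show a * (c • b) * a = c • (a * b * a)
        rw [mul_smul_comm, smul_mul_assoc] }
  have hL : Continuous L := hcont.comp hinc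
  let J : Submodule ℂ B :=
    { carrier := {y | y ∈ I ∧ ∀ p q, L (p * y * q) = 0}
      zero_mem' := ⟨I.zero_mem, fun p q => by rw [mul_zero, zero_mul, map_zero]⟩
      add_mem' := by
        rintro x y ⟨hx, hx'⟩ ⟨hy, hy'⟩
        refine ⟨I.add_mem hx hy, fun p q => ?_⟩
        rw [mul_add, add_mul, map_add, hx', hy', add_zero]
      smul_mem' := by
        rintro c x ⟨hx, hx'⟩
        refine ⟨I.smul_mem c hx, fun p q => ?_⟩
        rw [mul_smul_comm, smul_mul_assoc, map_smul, hx', smul_zero] }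
  have hmemJ : ∀ y, y ∈ J ↔ y ∈ I ∧ ∀ p q, L (p * y * q) = 0 := fun y => Iff.rfl
  have hJ : Idl J := by
    refine ⟨?_, ?_, ?_, ?_⟩
    · have : (J : Set B) = (I : Set B) ∩ ⋂ p : B, ⋂ q : B, {y | L (p * y * q) = 0} := by
        ext y
        simp only [SetLike.mem_coe, hmemJ, Set.mem_inter_iff, Set.mem_iInter, Set.mem_ofPred_eq]
      rw [this]
      refine hI.closed.inter (isClosed_iInter fun p => isClosed_iInter fun q => ?_)
      exact isClosed_eq (hL.comp (by fun_prop)) continuous_const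
    · rintro x ⟨hx, hx'⟩ y
      refine ⟨hI.mulL x hx y, fun p q => ?_⟩
      rw [← mul_assoc]
      exact hx' (p * y) q
    · rintro x ⟨hx, hx'⟩ y
      refine ⟨hI.mulR x hx y, fun p q => ?_⟩
      have := hx' p (y * q)
      simpa only [mul_assoc] using this
    · rintro x ⟨hx, hx'⟩
      refine ⟨hI.star x hx, fun p q => ?_⟩
      have h1 := hx' (star q) (star p)
      have h2 : inc (p * star x * q) = star (inc (star q * x * star p)) := by
        apply Subtype.ext
        show a * (p * star x * q) * a = star (a * (star q * x * star p) * a)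
        simp only [star_mul, star_star, ha, mul_assoc]
      show χ (inc (p * star x * q)) = 0
      rw [h2, map_star]
      have h3 : χ (inc (star q * x * star p)) = 0 := h1
      rw [h3, star_zero]
  have hJI : J ≤ I := fun y hy => hy.1
  have key : ∀ m : D, χ m = 0 → a * (m : B) * a ∈ J := by
    intro m hm
    refine ⟨hI.mulR _ (hI.mulR _ haI _) _, fun p q => ?_⟩
    have h1 : inc (p * (a * (m : B) * a) * q) = inc p * m * inc q := by
      apply Subtype.ext
      show a * (p * (a * (m : B) * a) * q) * a = a * p * a * m * (a * q * a)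
      simp only [mul_assoc]
    show χ (inc (p * (a * (m : B) * a) * q)) = 0
    rw [h1, map_mul, map_mul, hm, mul_zero, zero_mul]
  obtain ⟨e, he⟩ : ∃ e : B, e = (lam⁻¹ ^ 3) • (a * a * a) := ⟨_, rfl⟩
  have heI : e ∈ I := by
    rw [he]
    exact I.smul_mem _ (hI.mulR _ (hI.mulR _ haI _) _)
  have hes : star e = e := by
    rw [he, star_smul, star_mul, star_mul, ha, star_pow, star_inv₀, hls, mul_assoc]
  have h1 : star e - e ∈ J := by
    rw [hes, sub_self]
    exact J.zero_mem
  have h2 : e * e - e ∈ J := by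
    have hm : χ ((lam⁻¹ ^ 6) • (a1 * a1 * a1 * a1) - (lam⁻¹ ^ 3) • a1) = 0 := by
      rw [map_sub, map_smul, map_smul, map_mul, map_mul, map_mul, ← hlam, smul_eq_mul, smul_eq_mul]
      field_simp
      ring
    have h3 : e * e - e = a * ((((lam⁻¹ ^ 6) • (a1 * a1 * a1 * a1) - (lam⁻¹ ^ 3) • a1 : D)) : B) *
        a := by
      show e * e - e = a * ((lam⁻¹ ^ 6) • (a * a * a * a) - (lam⁻¹ ^ 3) • a) * a
      rw [he]
      simp only [mul_sub, sub_mul, smul_mul_assoc, mul_smul_comm, smul_smul, mul_assoc, ← pow_add]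
    rw [h3]
    exact key _ hm
  have h3 : ∀ x ∈ I, ∃ c : ℂ, e * x * e - c • e ∈ J := by
    intro x _
    refine ⟨lam⁻¹ ^ 4 * χ (inc (a * x * a)), ?_⟩
    obtain ⟨c, hcc⟩ : ∃ c : ℂ, c = lam⁻¹ ^ 4 * χ (inc (a * x * a)) := ⟨_, rfl⟩
    rw [← hcc]
    have hm : χ ((lam⁻¹ ^ 6) • inc (a * x * a) - (c * lam⁻¹ ^ 3) • a1) = 0 := by
      rw [map_sub, map_smul, map_smul, ← hlam, smul_eq_mul, smul_eq_mul, hcc]
      field_simp
      ring
    have h4 : e * x * e - c • e = a * (((lam⁻¹ ^ 6) • inc (a * x * a) -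
        (c * lam⁻¹ ^ 3) • a1 : D) : B) * a := by
      show e * x * e - c • e = a * ((lam⁻¹ ^ 6) • (a * (a * x * a) * a) - (c * lam⁻¹ ^ 3) • a) * a
      rw [he]
      simp only [mul_sub, sub_mul, smul_mul_assoc, mul_smul_comm, smul_smul, mul_assoc, ← pow_add]
    rw [h4]
    exact key _ hm
  have h4 := hN J e hJ hJI heI h1 h2 h3
  have h5 := h4.2 1 1
  rw [one_mul, mul_one] at h5
  have h6 : inc e = (lam⁻¹ ^ 3) • (a1 * a1 * a1 * a1 * a1) := by
    apply Subtype.ext
    show a * e * a = (lam⁻¹ ^ 3) • (a * a * a * a * a)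
    rw [he]
    simp only [smul_mul_assoc, mul_smul_comm, mul_assoc]
  have h7 : χ (inc e) = 0 := h5
  rw [h6, map_smul, map_mul, map_mul, map_mul, map_mul, ← hlam, smul_eq_mul] at h7
  have : lam⁻¹ ^ 3 * (lam * lam * lam * lam * lam) ≠ 0 := by
    simp [hl0]
  exact this h7

theorem t_CERT : S_CERT := by
  intro B _ I hI hN a haI hpos _ κ hκ
  have hmem : a ∈ closure (K0 a : Set B) := by
    by_contra hcon
    have hcl : IsClosed ((D1 a hpos.sa : StarSubalgebra ℂ B) : Set B) :=
      StarSubalgebra.isClosed_topologicalClosure _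
    have _ : IsClosed ((D1 a hpos.sa : StarSubalgebra ℂ B) : Set B) := hcl
    have H : CI (K1 a hpos.sa) := by
      refine ⟨?_, ?_, ?_⟩
      · exact isClosed_closure.preimage continuous_subtype_val
      · intro x k hk
        exact mulL hpos.sa x.2 hk
      · intro x k hk
        exact mulR hpos.sa x.2 hk
    obtain ⟨χ, hχ⟩ := exists_chi H (fun x y => commD hpos x.2 y.2)
      (a := ⟨a, self_mem hpos⟩) hcon
    exact hχ (no_char I hI hN haI (D1 a hpos.sa) hcl hpos.sa (self_mem hpos)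
      (corner_mem a hpos.sa) χ)
  obtain ⟨x, hx, hd⟩ := Metric.mem_closure_iff.1 hmem κ hκ
  obtain ⟨N, b, rfl⟩ := hx
  refine ⟨N, b, ?_⟩
  rw [dist_eq_norm] at hd
  exact hd.le

end Pool.Agent.N787.ND

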